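import Pool.Agent.Lib.MP_6498db_nt.Geo

/-!
`A_l(w) = l v^2` with `l ≥ 5` prime is possible only if `w ≡ 1 mod 4`.
-/

namespace Pool.Agent.Lib.MP_6498db_nt

open Finset
open scoped NumberTheorySymbols

theorem geo_mod_four {w : ℤ} (hw : w % 4 = 0 ∨ w % 4 = 3) {k : ℕ} (hk : Odd k) :
    geo w k % 4 = 1 := by
  obtain ⟨t, rfl⟩ := hk
  have h4 : (4 : ℤ) ∣ w * (1 + w) := by
    rcases hw with h | h
    · exact Dvd.dvd.mul_right (Int.dvd_of_emod_eq_zero h) _
    · exact Dvd.dvd.mul_left (Int.dvd_of_emod_eq_zero (by omega)) _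
  have h : ∀ t : ℕ, (4 : ℤ) ∣ geo w (2 * t + 1) - 1 := by
    intro t
    induction t with
    | zero => simp [geo_one]
    | succ t ih =>
      have e : geo w (2 * (t + 1) + 1) - 1 = (geo w (2 * t + 1) - 1) + w ^ (2 * t) * (w * (1 + w)) := by
        have : 2 * (t + 1) + 1 = (2 * t + 1) + 1 + 1 := by ring
        rw [this, geo_succ, geo_succ]
        ring
      rw [e]
      exact dvd_add ih (Dvd.dvd.mul_left h4 _)
  have := h t
  omega

theorem natAbs_geo (w : ℤ) {k : ℕ} (hk : Odd k) : ((geo w k).natAbs : ℤ) = geo w k :=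
  Int.natAbs_of_nonneg (geo_pos w hk).le

theorem jac_w {w : ℤ} {j : ℕ} (hj : Odd j) : J(w | (geo w j).natAbs) = 1 := by
  have h1 : J(w ^ j | (geo w j).natAbs) = 1 := by
    rw [jacobiSym.mod_left' (a₂ := 1), jacobiSym.one_left]
    apply Int.ModEq.symm
    rw [Int.modEq_iff_dvd, natAbs_geo w hj]
    exact geo_dvd_pow w j
  rw [jacobiSym.pow_left] at h1
  rcases jacobiSym.trichotomy w (geo w j).natAbs with h | h | h
  · rw [h, zero_pow (by rintro rfl; exact absurd hj (by decide))] at h1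
    norm_num at h1
  · exact h
  · rw [h, hj.neg_one_pow] at h1
    norm_num at h1

theorem jac_neg_one {b : ℕ} (hb : b % 4 = 1) : J(-1 | b) = 1 := by
  rw [jacobiSym.at_neg_one (Nat.odd_iff.mpr (by omega)), ZMod.χ₄_nat_one_mod_four hb]

/-- reciprocity for the numbers `A_i(w)`, `i` odd -/
theorem jac_geo {w : ℤ} (hw : w % 4 = 0 ∨ w % 4 = 3) : ∀ j : ℕ, Odd j → ∀ i : ℕ, Odd i →
    Nat.Coprime i j → J(geo w i | (geo w j).natAbs) = 1 := by
  intro j
  induction j using Nat.strong_induction_on with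
  | _ j ih =>
    intro hj i hi hij
    have hm : ∀ k : ℕ, Odd k → (geo w k).natAbs % 4 = 1 := by
      intro k hk
      have h1 := geo_mod_four hw hk
      have h2 := natAbs_geo w hk
      omega
    rcases Nat.lt_or_ge j 2 with hj2 | hj2
    · have : j = 1 := by
        rcases hj with ⟨t, ht⟩
        omega
      subst this
      rw [geo_one]
      simp
    -- swap for `r < j`
    have hswap : ∀ r : ℕ, Odd r → r < j → Nat.Coprime r j →
        J(geo w r | (geo w j).natAbs) = 1 := by
      intro r hr hrj hc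
      have h1 := ih r hrj hr j hj hc.symm
      have h2 := jacobiSym.quadratic_reciprocity_one_mod_four (hm r hr)
        (Nat.odd_iff.mpr (by have := hm j hj; omega) : Odd (geo w j).natAbs)
      rw [natAbs_geo w hr, natAbs_geo w hj] at h2
      rw [h2]
      exact h1
    -- reduce `i` modulo `2 j`
    set r := i % (2 * j) with hr
    have hrlt : r < 2 * j := Nat.mod_lt _ (by omega)
    have hidiv : i = j * (2 * (i / (2 * j))) + r := by
      have := Nat.div_add_mod i (2 * j)
      rw [← hr] at this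
      linarith [this, mul_assoc 2 j (i / (2 * j))]
    have hrodd : Odd r := by
      have h3 : Even (j * (2 * (i / (2 * j)))) := ⟨j * (i / (2 * j)), by ring⟩
      rw [hidiv] at hi
      exact (Nat.odd_add'.mp hi).mpr h3
    have hrc : Nat.Coprime r j := by
      have : Nat.Coprime (j * (2 * (i / (2 * j))) + r) j := by rw [← hidiv]; exact hij
      rwa [Nat.coprime_mul_left_add_left] at this
    have hred : J(geo w i | (geo w j).natAbs) = J(geo w r | (geo w j).natAbs) := by
      apply jacobiSym.mod_left'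
      apply Int.ModEq.symm
      rw [Int.modEq_iff_dvd, natAbs_geo w hj, hidiv]
      exact geo_mod w j _ r
    rw [hred]
    rcases lt_trichotomy r j with h | h | h
    · exact hswap r hrodd h hrc
    · rw [h, Nat.coprime_self] at hrc
      omega
    · obtain ⟨r', hr'⟩ : ∃ r', r + r' = 2 * j := ⟨2 * j - r, by omega⟩
      have hr'odd : Odd r' := by
        have h3 : Even (r + r') := ⟨j, by omega⟩
        rcases Nat.even_or_odd r' with h4 | h4
        · exact absurd (Nat.even_add.mp h3 |>.mpr h4) (Nat.not_even_iff_odd.mpr hrodd)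
        · exact h4
      have hr'c : Nat.Coprime r' j := by
        have h5 : r' = j * 2 - r := by omega
        have h6 : Nat.Coprime (r + r') j → j = 1 := by
          intro h7
          rw [hr'] at h7
          have := Nat.Coprime.coprime_mul_left h7
          exact (Nat.coprime_self j).mp this
        refine Nat.Coprime.symm ?_
        have h8 : Nat.gcd j r' = 1 := by
          have hd1 : Nat.gcd j r' ∣ r := by
            have h9 : Nat.gcd j r' ∣ r + r' := by
              rw [hr']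
              exact Dvd.dvd.mul_left (Nat.gcd_dvd_left _ _) _
            exact (Nat.dvd_add_left (Nat.gcd_dvd_right _ _)).mp h9
          have hd2 : Nat.gcd j r' ∣ Nat.gcd r j := Nat.dvd_gcd hd1 (Nat.gcd_dvd_left _ _)
          rw [hrc] at hd2
          exact Nat.dvd_one.mp hd2
        exact h8
      have hr'j : r' < j := by omega
      have hmod : J(geo w r | (geo w j).natAbs) = J(-1 * w ^ r * geo w r' | (geo w j).natAbs) := by
        apply jacobiSym.mod_left'
        apply Int.ModEq.symm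
        rw [Int.modEq_iff_dvd, natAbs_geo w hj]
        have h9 : geo w j ∣ geo w (r + r') := by
          rw [hr', mul_comm]
          exact geo_dvd_mul w j 2
        rw [geo_add] at h9
        have e : geo w r - -1 * w ^ r * geo w r' = geo w r + w ^ r * geo w r' := by ring
        rw [e]
        exact h9
      rw [hmod, jacobiSym.mul_left, jacobiSym.mul_left, jacobiSym.pow_left, jac_w hj,
        jac_neg_one (hm j hj), hswap r' hr'odd hr'j hr'c]
      simp

theorem dvd_sub_one {w : ℤ} {l : ℕ} (hl : l.Prime) (h : (l : ℤ) ∣ geo w l) : (l : ℤ) ∣ w - 1 := by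
  have := Fact.mk hl
  have h1 : (l : ℤ) ∣ w ^ l - 1 := by
    rw [← geo_mul]
    exact Dvd.dvd.mul_left h _
  rw [← ZMod.intCast_zmod_eq_zero_iff_dvd] at h1 ⊢
  push_cast at h1 ⊢
  rwa [ZMod.pow_card] at h1

theorem jac_of_sq {l b : ℕ} {v : ℤ} (h : J((l : ℤ) * v ^ 2 | b) = 1) : J((l : ℤ) | b) = 1 := by
  rw [jacobiSym.mul_left, jacobiSym.pow_left] at h
  rcases jacobiSym.trichotomy v b with h1 | h1 | h1
  · rw [h1] at h; norm_num at h
  · rw [h1] at h; simpa using h
  · rw [h1] at h; simpa using h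

/-- there is a non-residue modulo a prime `l ≥ 5` -/
theorem exists_nonres {l : ℕ} (hl : l.Prime) (h5 : 5 ≤ l) :
    ∃ r : ℕ, 0 < r ∧ r < l ∧ J((r : ℤ) | l) = -1 := by
  have := Fact.mk hl
  obtain ⟨a, ha⟩ := FiniteField.exists_nonsquare (F := ZMod l) (by
    rw [ZMod.ringChar_zmod_n]; omega)
  have ha0 : a ≠ 0 := by
    rintro rfl
    exact ha ⟨0, by ring⟩
  refine ⟨a.val, ?_, ZMod.val_lt a, ?_⟩
  · rcases Nat.eq_zero_or_pos a.val with h | h
    · exact absurd ((ZMod.val_eq_zero a).mp h) ha0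
    · exact h
  · rw [← jacobiSym.legendreSym.to_jacobiSym, legendreSym.eq_neg_one_iff]
    simpa using ha

theorem geo_eq_zero_three {w v : ℤ} {l : ℕ} (hl : l.Prime) (h5 : 5 ≤ l)
    (hw : w % 4 = 0 ∨ w % 4 = 3) : geo w l ≠ l * v ^ 2 := by
  intro he
  have hlodd : Odd l := hl.odd_of_ne_two (by omega)
  have hdvd : (l : ℤ) ∣ w - 1 := dvd_sub_one hl ⟨v ^ 2, he⟩
  -- every odd `k < l` is a residue
  have hres : ∀ k : ℕ, Odd k → k < l → J((k : ℤ) | l) = 1 := by
    intro k hk hkl
    have hkpos : 0 < k := hk.pos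
    have hc : Nat.Coprime l k := (Nat.Prime.coprime_iff_not_dvd hl).mpr
      (fun h => absurd (Nat.le_of_dvd hkpos h) (by omega))
    have h1 := jac_geo hw k hk l hlodd hc
    rw [he] at h1
    have h2 := jac_of_sq h1
    have hm : (geo w k).natAbs % 4 = 1 := by
      have h1 := geo_mod_four hw hk
      have h2 := natAbs_geo w hk
      omega
    have h3 := jacobiSym.quadratic_reciprocity_one_mod_four hm hlodd
    rw [← h3, natAbs_geo w hk] at h2
    rw [← h2]
    apply jacobiSym.mod_left'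
    apply Int.ModEq.symm
    apply Int.ModEq.symm
    rw [Int.modEq_iff_dvd]
    exact hdvd.trans (geo_sub w k)
  have hneg : ∀ k : ℕ, Odd k → k < l → J(((l : ℤ) - k) | l) = J(-1 | l) * J((k : ℤ) | l) := by
    intro k _ _
    rw [← jacobiSym.mul_left]
    apply jacobiSym.mod_left'
    apply Int.ModEq.symm
    rw [Int.modEq_iff_dvd]
    exact ⟨1, by ring⟩
  have h2 : J(-2 | l) = 1 := by
    have h := hres (l - 2) (by rcases hlodd with ⟨t, ht⟩; exact ⟨t - 1, by omega⟩) (by omega)
    rw [← h]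
    apply jacobiSym.mod_left'
    apply Int.ModEq.symm
    rw [Int.modEq_iff_dvd]
    refine ⟨-1, ?_⟩
    push_cast [Nat.cast_sub (show 2 ≤ l by omega)]
    ring
  have h4 : J(-4 | l) = 1 := by
    have h := hres (l - 4) (by rcases hlodd with ⟨t, ht⟩; exact ⟨t - 2, by omega⟩) (by omega)
    rw [← h]
    apply jacobiSym.mod_left'
    apply Int.ModEq.symm
    rw [Int.modEq_iff_dvd]
    refine ⟨-1, ?_⟩
    push_cast [Nat.cast_sub (show 4 ≤ l by omega)]
    ring
  have hm1 : J(-1 | l) = 1 := by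
    have e : (-4 : ℤ) = -1 * 2 ^ 2 := by norm_num
    rw [e, jacobiSym.mul_left, jacobiSym.pow_left] at h4
    rcases jacobiSym.trichotomy 2 l with h | h | h
    · rw [h] at h4; norm_num at h4
    · rw [h] at h4; simpa using h4
    · rw [h] at h4; simpa using h4
  obtain ⟨r, hr0, hrl, hr⟩ := exists_nonres hl h5
  rcases Nat.even_or_odd r with he' | ho
  · have hodd : Odd (l - r) := Nat.Odd.sub_even hrl.le hlodd he'
    have h := hres (l - r) hodd (by omega)
    have h3 : J(((l - r : ℕ) : ℤ) | l) = J(-1 * r | l) := by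
      apply jacobiSym.mod_left'
      apply Int.ModEq.symm
      rw [Int.modEq_iff_dvd]
      refine ⟨1, ?_⟩
      push_cast [Nat.cast_sub hrl.le]
      ring
    rw [h3, jacobiSym.mul_left, hm1, hr] at h
    norm_num at h
  · have h := hres r ho hrl
    rw [hr] at h
    norm_num at h

theorem geo_mod_eight {w : ℤ} (hw : w % 4 = 2) {k : ℕ} (hk : 3 ≤ k) :
    (8 : ℤ) ∣ geo w k - (w + 5) := by
  have h2 : (2 : ℤ) ∣ w := by omega
  have hpow : ∀ k : ℕ, 3 ≤ k → (8 : ℤ) ∣ w ^ k := by
    intro k hk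
    obtain ⟨j, rfl⟩ := Nat.exists_eq_add_of_le hk
    rw [pow_add]
    apply Dvd.dvd.mul_right
    have := pow_dvd_pow_of_dvd h2 3
    norm_num at this
    exact this
  obtain ⟨j, rfl⟩ := Nat.exists_eq_add_of_le hk
  induction j with
  | zero =>
    have e : geo w (3 + 0) = 1 + w + w ^ 2 := by
      simp [geo, Finset.sum_range_succ]
    rw [e]
    obtain ⟨c, hc⟩ : ∃ c, w = 4 * c + 2 := ⟨w / 4, by omega⟩
    rw [hc]
    exact ⟨2 * c ^ 2 + 2 * c, by ring⟩
  | succ j ih =>
    have e : geo w (3 + (j + 1)) - (w + 5) = (geo w (3 + j) - (w + 5)) + w ^ (3 + j) := by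
      rw [← add_assoc, geo_succ]
      ring
    rw [e]
    exact dvd_add (ih (by omega)) (hpow _ (by omega))

theorem geo_eq_two {w v : ℤ} {l : ℕ} (hl : l.Prime) (h5 : 5 ≤ l) (hw : w % 4 = 2) :
    geo w l ≠ l * v ^ 2 := by
  intro he
  have hlodd : Odd l := hl.odd_of_ne_two (by omega)
  have hdvd : (l : ℤ) ∣ w - 1 := dvd_sub_one hl ⟨v ^ 2, he⟩
  have hmod := geo_mod_eight hw (show 3 ≤ l by omega)
  rw [he] at hmod
  -- `v` is odd
  have hvodd : v % 2 = 1 := by
    by_contra hv
    have hv2 : (2 : ℤ) ∣ v := by omega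
    have h1 : (4 : ℤ) ∣ v ^ 2 := by
      have := pow_dvd_pow_of_dvd hv2 2
      norm_num at this
      exact this
    have h2 : (4 : ℤ) ∣ (l : ℤ) * v ^ 2 := Dvd.dvd.mul_left h1 _
    omega
  have hv8 : (8 : ℤ) ∣ v ^ 2 - 1 := by
    obtain ⟨c, hc⟩ : ∃ c, v = 2 * c + 1 := ⟨v / 2, by omega⟩
    rcases Int.even_or_odd c with ⟨d, hd⟩ | ⟨d, hd⟩
    · exact ⟨2 * d ^ 2 + d, by rw [hc, hd]; ring⟩
    · exact ⟨2 * d ^ 2 + 3 * d + 1, by rw [hc, hd]; ring⟩
  have hl8 : (8 : ℤ) ∣ l - (w + 5) := by
    have h3 : (8 : ℤ) ∣ (l : ℤ) * (v ^ 2 - 1) := Dvd.dvd.mul_left hv8 _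
    have e : (l : ℤ) - (w + 5) = ((l : ℤ) * v ^ 2 - (w + 5)) - (l : ℤ) * (v ^ 2 - 1) := by ring
    rw [e]
    exact dvd_sub hmod h3
  rcases (show w % 8 = 2 ∨ w % 8 = 6 by omega) with h8 | h8
  · -- `l ≡ 7 mod 8`, use `A_2 = 1 + w`
    have hl7 : l % 8 = 7 := by omega
    have h1 : J(geo w l | (1 + w).natAbs) = 1 := by
      rw [jacobiSym.mod_left' (a₂ := 1), jacobiSym.one_left]
      apply Int.ModEq.symm
      rw [Int.modEq_iff_dvd, Int.natAbs_dvd]
      obtain ⟨t, ht⟩ := hlodd
      have := geo_mod w 2 t 1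
      rw [geo_two, geo_one, ← ht] at this
      exact this
    rw [he] at h1
    have h2 := jac_of_sq h1
    rcases lt_or_ge w 0 with hneg | hpos
    · have hb : (1 + w).natAbs % 4 = 1 := by omega
      have h3 := jacobiSym.quadratic_reciprocity_one_mod_four hb hlodd
      rw [← h3] at h2
      have h4 : J((((1 + w).natAbs : ℕ) : ℤ) | l) = J(-2 | l) := by
        apply jacobiSym.mod_left'
        apply Int.ModEq.symm
        rw [Int.modEq_iff_dvd]
        have e : (((1 + w).natAbs : ℕ) : ℤ) = -(1 + w) := by omega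
        rw [e]
        obtain ⟨c, hc⟩ := hdvd
        exact ⟨-c, by linarith⟩
      rw [h4, jacobiSym.at_neg_two hlodd, ZMod.χ₈'_nat_eq_if_mod_eight] at h2
      rw [if_neg (by omega), if_neg (by omega)] at h2
      norm_num at h2
    · have hb : (1 + w).natAbs % 4 = 3 := by omega
      have h3 := jacobiSym.quadratic_reciprocity_three_mod_four hb (show l % 4 = 3 by omega)
      have h4 : J((((1 + w).natAbs : ℕ) : ℤ) | l) = J(2 | l) := by
        apply jacobiSym.mod_left'
        apply Int.ModEq.symm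
        rw [Int.modEq_iff_dvd]
        have e : (((1 + w).natAbs : ℕ) : ℤ) = 1 + w := by omega
        rw [e]
        obtain ⟨c, hc⟩ := hdvd
        exact ⟨c, by linarith⟩
      rw [h4, jacobiSym.at_two hlodd, ZMod.χ₈_nat_eq_if_mod_eight, if_neg (by omega),
        if_pos (by omega), h2] at h3
      norm_num at h3
  · -- `l ≡ 3 mod 8`, use `k = (l - 1) / 2`
    have hl3 : l % 8 = 3 := by omega
    obtain ⟨k, hk⟩ := hlodd
    have hkodd : Odd k := Nat.odd_iff.mpr (by omega)
    have hk5 : 5 ≤ k := by omega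
    have hAk := geo_mod_eight hw (show 3 ≤ k by omega)
    have hna := natAbs_geo w hkodd
    have hb : (geo w k).natAbs % 4 = 3 := by omega
    have h1 : J(geo w l | (geo w k).natAbs) = 1 := by
      rw [jacobiSym.mod_left' (a₂ := 1), jacobiSym.one_left]
      apply Int.ModEq.symm
      rw [Int.modEq_iff_dvd, hna]
      have := geo_mod w k 2 1
      rw [geo_one, mul_comm k 2, ← hk] at this
      exact this
    rw [he] at h1
    have h2 := jac_of_sq h1
    have h3 := jacobiSym.quadratic_reciprocity_three_mod_four hb (show l % 4 = 3 by omega)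
    have h4 : J((((geo w k).natAbs : ℕ) : ℤ) | l) = J((k : ℤ) | l) := by
      apply jacobiSym.mod_left'
      apply Int.ModEq.symm
      rw [Int.modEq_iff_dvd, hna]
      exact hdvd.trans (geo_sub w k)
    have hlo : Odd l := ⟨k, hk⟩
    have h5' : J((k : ℤ) | l) * J(2 | l) = J(-1 | l) := by
      rw [← jacobiSym.mul_left]
      apply jacobiSym.mod_left'
      apply Int.ModEq.symm
      rw [Int.modEq_iff_dvd]
      exact ⟨1, by rw [hk]; push_cast; ring⟩
    rw [jacobiSym.at_two hlo, ZMod.χ₈_nat_eq_if_mod_eight, if_neg (by omega), if_neg (by omega),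
      jacobiSym.at_neg_one hlo, ZMod.χ₄_nat_three_mod_four (by omega)] at h5'
    rw [h4, h2] at h3
    rw [h3] at h5'
    norm_num at h5'

/-- `1 + w + ... + w^(l-1) = l v^2` with a prime `l ≥ 5` implies `w ≡ 1 mod 4`. -/
theorem mod_four_of_geo_eq {w v : ℤ} {l : ℕ} (hl : l.Prime) (h5 : 5 ≤ l)
    (he : geo w l = l * v ^ 2) : w % 4 = 1 := by
  by_contra h
  rcases (show (w % 4 = 0 ∨ w % 4 = 3) ∨ w % 4 = 2 by omega) with h' | h'
  · exact geo_eq_zero_three hl h5 h' he
  · exact geo_eq_two hl h5 h' he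

end Pool.Agent.Lib.MP_6498db_nt
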