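import Mathlib

/-!
The numbers `A_k(w) = 1 + w + ... + w^(k-1)` and the equation `A_l(w) = l v^2` (`l ≥ 5` prime):
Jacobi symbols show `w ≡ 1 mod 4`.
-/

namespace Pool.Agent.Lib.MP_6498db_nt

open Finset
open scoped NumberTheorySymbols

/-- `A_k(w) = 1 + w + ... + w^(k-1)`. -/
def geo (w : ℤ) (k : ℕ) : ℤ := ∑ i ∈ range k, w ^ i

theorem geo_zero (w : ℤ) : geo w 0 = 0 := by simp [geo]

theorem geo_one (w : ℤ) : geo w 1 = 1 := by simp [geo]

theorem geo_two (w : ℤ) : geo w 2 = 1 + w := by simp [geo, Finset.sum_range_succ]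

theorem geo_succ (w : ℤ) (k : ℕ) : geo w (k + 1) = geo w k + w ^ k := by
  simp [geo, Finset.sum_range_succ]

theorem geo_add (w : ℤ) (m n : ℕ) : geo w (m + n) = geo w m + w ^ m * geo w n := by
  unfold geo
  rw [Finset.sum_range_add, Finset.mul_sum]
  congr 1
  refine Finset.sum_congr rfl fun i _ => ?_
  rw [pow_add]

theorem geo_mul (w : ℤ) (k : ℕ) : (w - 1) * geo w k = w ^ k - 1 := by
  rw [mul_comm]
  exact geom_sum_mul w k

/-- `w ^ j ≡ 1` modulo `A_j(w)`. -/
theorem geo_dvd_pow (w : ℤ) (j : ℕ) : geo w j ∣ w ^ j - 1 := ⟨w - 1, by rw [← geo_mul]; ring⟩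

theorem geo_dvd_mul (w : ℤ) (j q : ℕ) : geo w j ∣ geo w (j * q) := by
  induction q with
  | zero => simp [geo_zero]
  | succ q ih =>
    rw [Nat.mul_succ, geo_add]
    exact dvd_add ih (Dvd.dvd.mul_left (dvd_refl _) _)

/-- `A_(j q + r) ≡ A_r` modulo `A_j`. -/
theorem geo_mod (w : ℤ) (j q r : ℕ) : geo w j ∣ geo w (j * q + r) - geo w r := by
  have h1 : geo w (j * q + r) = geo w r + w ^ r * geo w (j * q) := by
    rw [add_comm (j * q) r, geo_add]
  rw [h1, add_sub_cancel_left]
  exact Dvd.dvd.mul_left (geo_dvd_mul w j q) _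

/-- `A_k ≡ k` modulo `w - 1`. -/
theorem geo_sub (w : ℤ) (k : ℕ) : w - 1 ∣ geo w k - k := by
  induction k with
  | zero => simp [geo_zero]
  | succ k ih =>
    rw [geo_succ]
    have h : w - 1 ∣ w ^ k - 1 := by
      rw [← geo_mul]
      exact Dvd.intro _ rfl
    have := dvd_add ih h
    have e : geo w k - k + (w ^ k - 1) = geo w k + w ^ k - ((k + 1 : ℕ) : ℤ) := by
      push_cast; ring
    rwa [e] at this

/-- `A_k > 0` for odd `k`. -/
theorem geo_pos (w : ℤ) {k : ℕ} (hk : Odd k) : 0 < geo w k := by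
  obtain ⟨t, rfl⟩ := hk
  rcases lt_trichotomy w 0 with h | h | h
  · have h1 : w ^ (2 * t + 1) < 0 := Odd.pow_neg ⟨t, rfl⟩ h
    have h2 := geo_mul w (2 * t + 1)
    nlinarith
  · subst h
    rw [geo_add, geo_one]
    unfold geo
    rcases Nat.eq_zero_or_pos t with ht | ht
    · subst ht; simp
    · have : ∑ i ∈ range (2 * t), (0 : ℤ) ^ i = 1 := by
        rw [Finset.sum_eq_single 0]
        · simp
        · intro b _ hb
          simp [hb]
        · intro h0
          simp at h0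
          omega
      rw [this]
      have h3 : (0 : ℤ) ^ (2 * t) = 0 := by
        apply zero_pow
        omega
      rw [h3]; norm_num
  · unfold geo
    apply Finset.sum_pos
    · intro i _
      positivity
    · exact ⟨0, by simp⟩

end Pool.Agent.Lib.MP_6498db_nt
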